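import Mathlib
import Pool.Agent.W66.ST

set_option autoImplicit false

/-!
# The Lenstra-Pomerance-Wagstaff law in base two for almost every amplitude

For real `β > 0` and a prime `p` let `W β p` be the `p`-rough part (the product, with multiplicity,
of the prime factors larger than `p`) of the largest integer below `β * 2 ^ p`, the integer with
the first `p` binary digits of `β` (for `0 < β ≤ 1`, non-terminating expansion).  For
`β = 1 = 0.111...` this is the Mersenne number `2 ^ p - 1` itself.  Let `M β n` be the number of
primes `p ≤ n` with `W β p` prime.  The base `2` is fixed.  We prove that for almost every `β > 0`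
the limit of `M β n / log n` exists and equals `e ^ γ / log 2`.
-/

namespace Pool.Agent.Results.MP_9b2bac_nt.BaseTwoLaw

open Filter Topology MeasureTheory

/-- The product, with multiplicity, of the prime factors of `m` that are larger than `p`. -/
def roughPart (p m : ℕ) : ℕ := (m.primeFactorsList.filter (fun r => p < r)).prod

/-- The `p`-rough part of the largest integer below `β * 2 ^ p`. -/
noncomputable def W (β : ℝ) (p : ℕ) : ℕ := roughPart p (⌈β * 2 ^ p⌉₊ - 1)

/-- The number of primes `p ≤ n` for which `W β p` is prime. -/
noncomputable def M (β : ℝ) (n : ℕ) : ℕ :=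
  ((Finset.range (n + 1)).filter (fun p => p.Prime ∧ (W β p).Prime)).card

/-- The counting function at `β = 1` is that of the Mersenne primes, and for almost every
amplitude, with the base `2` fixed, the asymptotic law holds. -/
theorem result :
    (∀ n : ℕ, M 1 n = ((Finset.range (n + 1)).filter (fun p => p.Prime ∧ (2 ^ p - 1).Prime)).card) ∧
    (∀ᵐ β : ℝ, 0 < β → Tendsto (fun n : ℕ => (M β n : ℝ) / Real.log n) atTop
        (𝓝 (Real.exp Real.eulerMascheroniConstant / Real.log 2))) := by
  refine ⟨fun n => ?_, ?_⟩
  · unfold M
    congr 1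
    refine Finset.filter_congr fun p _ => and_congr_right fun hp => ?_
    have h := Pool.Agent.W66S.repunit_special (b := 2) le_rfl hp (by
      intro h
      exact hp.one_lt.ne' (Nat.dvd_one.1 h))
    have e1 : ⌈(1 / (((2 : ℕ) : ℝ) - 1)) * ((2 : ℕ) : ℝ) ^ p⌉₊ = ⌈(1 : ℝ) * 2 ^ p⌉₊ := by
      congr 1
      push_cast
      norm_num
    rw [e1, Nat.geomSum_eq le_rfl] at h
    have e2 : W 1 p = 2 ^ p - 1 := by
      have h2 : W 1 p = Pool.Agent.H305R2.roughPart p (⌈(1 : ℝ) * 2 ^ p⌉₊ - 1) := rfl
      rw [h2, h]
      norm_num
    rw [e2]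
  · have h := Pool.Agent.W66S.law_base (b := 2) le_rfl
    simp only [Nat.cast_ofNat] at h
    exact h

end Pool.Agent.Results.MP_9b2bac_nt.BaseTwoLaw
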