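import Mathlib
import Pool.Agent.W66.CK
import Pool.Agent.H447R2.ML.Spec

set_option autoImplicit false

/-!
# The Lenstra-Pomerance-Wagstaff law along every `C ^ 2` curve through the Mersenne numbers

For a function `A`, a real base `x > 1` and a prime `p` let `W A x p` be the `p`-rough part (the
product, with multiplicity, of the prime factors larger than `p`) of `⌊A x * (x ^ p - 1)⌋`, and let
`M A x n` be the number of primes `p ≤ n` with `W A x p` prime.  If `A 2 = 1`, then `W A 2 p` is the
Mersenne number `2 ^ p - 1` and `M A 2` is the counting function of the Mersenne prime exponents;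
for `A x = 1 / (x - 1)` the numbers are the repunits to the real base `x`.  We prove that for every
positive `C ^ 2` function `A` and almost every base `x > 1` the limit of `M A x n / log n` exists
and equals `e ^ γ / log x`.
-/

namespace Pool.Agent.Results.MP_9b2bac_nt.RealBaseLaw

open Filter Topology MeasureTheory

/-- The product, with multiplicity, of the prime factors of `m` that are larger than `p`. -/
def roughPart (p m : ℕ) : ℕ := (m.primeFactorsList.filter (fun r => p < r)).prod

/-- The `p`-rough part of `⌊A x * (x ^ p - 1)⌋`. -/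
noncomputable def W (A : ℝ → ℝ) (x : ℝ) (p : ℕ) : ℕ := roughPart p ⌊A x * (x ^ p - 1)⌋₊

/-- The number of primes `p ≤ n` for which `W A x p` is prime. -/
noncomputable def M (A : ℝ → ℝ) (x : ℝ) (n : ℕ) : ℕ :=
  ((Finset.range (n + 1)).filter (fun p => p.Prime ∧ (W A x p).Prime)).card

/-- At the base `2` the number `W` is the Mersenne number. -/
lemma W_mersenne {A : ℝ → ℝ} (hA : A 2 = 1) {p : ℕ} (hp : p.Prime) : W A 2 p = 2 ^ p - 1 := by
  have hpd : ¬ (p : ℤ) ∣ (2 : ℤ) - 1 := by
    intro h
    have h1 : (p : ℤ) ∣ 1 := by simpa using h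
    have h2 : p ∣ 1 := by exact_mod_cast h1
    exact hp.one_lt.ne' (Nat.dvd_one.1 h2)
  have h := Pool.Agent.H447R2.ML.rough_quot (a := 2) (b := 1) (by norm_num) (by norm_num)
    (by norm_num) hp hpd (x := (1 : ℝ) * (2 ^ p - 1)) (by norm_num)
  have hgeom : (∑ i ∈ Finset.range p, (2 : ℤ) ^ i * 1 ^ (p - 1 - i)) * (2 - 1) =
      (2 : ℤ) ^ p - 1 ^ p := (Commute.all (2 : ℤ) 1).geom_sum₂_mul p
  have h4 : W A 2 p = Pool.Agent.H305R2.roughPart p ⌊(1 : ℝ) * (2 ^ p - 1)⌋₊ := by
    unfold W
    rw [hA]
    rfl
  rw [← h4] at h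
  have h5 : W A 2 p + 1 = 2 ^ p := by
    have : ((W A 2 p + 1 : ℕ) : ℤ) = ((2 ^ p : ℕ) : ℤ) := by
      push_cast
      norm_num at h hgeom ⊢
      linarith
    exact_mod_cast this
  omega

/-- The counting function at the base `2` is that of the Mersenne prime exponents, and along every
positive `C ^ 2` curve of amplitudes the asymptotic law holds for almost every real base. -/
theorem result :
    (∀ A : ℝ → ℝ, A 2 = 1 → ∀ n : ℕ, M A 2 n =
      ((Finset.range (n + 1)).filter (fun p => p.Prime ∧ (2 ^ p - 1).Prime)).card) ∧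
    (∀ A : ℝ → ℝ, ContDiffOn ℝ 2 A (Set.Ioi 1) → (∀ x : ℝ, 1 < x → 0 < A x) →
      ∀ᵐ x : ℝ, 1 < x → Tendsto (fun n : ℕ => (M A x n : ℝ) / Real.log n) atTop
        (𝓝 (Real.exp Real.eulerMascheroniConstant / Real.log x))) := by
  refine ⟨fun A hA n => ?_, fun A hA hpos => ?_⟩
  · unfold M
    congr 1
    refine Finset.filter_congr fun p _ => and_congr_right fun hp => ?_
    rw [W_mersenne hA hp]
  · have e : max 1 |(1 : ℝ)| = 1 := by norm_num
    have h := Pool.Agent.W66C.law_curve 1 (A := A) (by rw [e]; exact hA) (by rw [e]; exact hpos)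
    rw [e] at h
    simp only [one_pow] at h
    exact h

end Pool.Agent.Results.MP_9b2bac_nt.RealBaseLaw
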