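import Mathlib
import Pool.Agent.W66.LU

set_option autoImplicit false

/-!
# The Lenstra-Pomerance-Wagstaff law for almost every 2-adic unit

For a 2-adic integer `α` and a prime `p` let `W α p` be the `p`-rough part (the product, with
multiplicity, of the prime factors larger than `p`) of the residue of `α` modulo `2 ^ p` in
`[0, 2 ^ p)`, the integer formed by the last `p` binary digits of `α`.  For `α = -1` this is the
Mersenne number `2 ^ p - 1` itself.  Let `M α n` be the number of primes `p ≤ n` with `W α p` prime.
We prove that for almost every 2-adic unit `α`, with respect to Haar measure, the limit of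
`M α n / log n` exists and equals `e ^ γ / log 2`.
-/

namespace Pool.Agent.Results.MP_9b2bac_nt.TwoAdicLaw

open Filter Topology MeasureTheory

/-- The product, with multiplicity, of the prime factors of `m` that are larger than `p`. -/
def roughPart (p m : ℕ) : ℕ := (m.primeFactorsList.filter (fun r => p < r)).prod

/-- The `p`-rough part of the residue of the 2-adic integer `α` modulo `2 ^ p`. -/
noncomputable def W (α : ℤ_[2]) (p : ℕ) : ℕ := roughPart p (PadicInt.toZModPow p α).val

/-- The number of primes `p ≤ n` for which `W α p` is prime. -/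
noncomputable def M (α : ℤ_[2]) (n : ℕ) : ℕ :=
  ((Finset.range (n + 1)).filter (fun p => p.Prime ∧ (W α p).Prime)).card

/-- The counting function at `α = -1` is that of the Mersenne primes, and for almost every 2-adic
unit the asymptotic law holds. -/
theorem result :
    (∀ n : ℕ, M (-1) n =
      ((Finset.range (n + 1)).filter (fun p => p.Prime ∧ (2 ^ p - 1).Prime)).card) ∧
    (∀ [MeasurableSpace ℤ_[2]] [BorelSpace ℤ_[2]] (μ : Measure ℤ_[2]) [μ.IsAddHaarMeasure],
      ∀ᵐ α : ℤ_[2] ∂μ, IsUnit α → Tendsto (fun n : ℕ => (M α n : ℝ) / Real.log n) atTop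
        (𝓝 (Real.exp Real.eulerMascheroniConstant / Real.log 2))) := by
  refine ⟨fun n => ?_, ?_⟩
  · unfold M
    congr 1
    refine Finset.filter_congr fun p _ => and_congr_right fun hp => ?_
    have e2 : W (-1) p = 2 ^ p - 1 := by
      have h1 : (PadicInt.toZModPow p (-1 : ℤ_[2])).val = 2 ^ p - 1 := by
        rw [map_neg, map_one]
        have h2 : 1 ≤ 2 ^ p := Nat.one_le_two_pow
        have h3 : (-1 : ZMod (2 ^ p)) = ((2 ^ p - 1 : ℕ) : ZMod (2 ^ p)) := by
          rw [Nat.cast_sub h2, ZMod.natCast_self, Nat.cast_one, zero_sub]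
        rw [h3, ZMod.val_natCast, Nat.mod_eq_of_lt (by omega)]
      have h2 : W (-1) p = Pool.Agent.H305R2.roughPart p (PadicInt.toZModPow p (-1 : ℤ_[2])).val := rfl
      rw [h2, h1, Pool.Agent.W66L.rough_mersenne hp]
    rw [e2]
  · intro _ _ μ _
    have h := Pool.Agent.W66L.law_all (μ := μ) le_rfl (Pool.Agent.W66L.full_padic 2 μ)
    filter_upwards [h] with α hα hu
    have hc : (Pool.Agent.W66L.res 2 1 α).Coprime 2 := by
      unfold Pool.Agent.W66L.res
      have h1 : IsUnit (PadicInt.toZModPow 1 α) := hu.map _
      have h2 := ZMod.isUnit_iff_coprime (PadicInt.toZModPow 1 α).val (2 ^ 1)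
      rw [ZMod.natCast_zmod_val] at h2
      simpa using h2.1 h1
    have h3 := hα hc
    refine h3.congr fun n => ?_
    have h4 : Pool.Agent.W66L.cntR (fun p => Pool.Agent.W66L.res 2 p α) n = M α n := by
      unfold Pool.Agent.W66L.cntR M
      congr 1
      ext p
      simp only [Finset.mem_filter, Finset.mem_Icc, Finset.mem_range]
      constructor
      · rintro ⟨⟨h5, h6⟩, h7, h8⟩
        exact ⟨by omega, h7, h8⟩
      · rintro ⟨h6, h7, h8⟩
        exact ⟨⟨h7.pos, by omega⟩, h7, h8⟩
    rw [h4]

end Pool.Agent.Results.MP_9b2bac_nt.TwoAdicLaw
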